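import Pool.Agent.Helper30.BG.Lap
import Pool.Agent.Helper35.HS3.Defs

open InnerProductSpace
open scoped ContDiff Laplacian

namespace Pool.Agent.Helper30.HS3

open Pool.Agent.Helper35.HS3

/-- Mathlib's Laplacian is `lap` on `C²` functions. -/
theorem conv {u : E → ℝ} (hu : ContDiff ℝ 2 u) (x : E) : Δ u x = lap u x :=
  Pool.Agent.Helper30.BG.lap_eq hu.contDiffAt

end Pool.Agent.Helper30.HS3
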